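import Pool.Agent.Lib.MP_b5021c_nt.IfaceS4
import Pool.Agent.Lib.MP_b5021c_nt.K.H31.Clo

/-!
# MP_b5021c_nt, row U_CL4: one closing with a single load, with the bound of `LsdS`
-/

namespace Pool.Agent.B5.H31

open scoped LaurentPolynomial
open Pool.Agent.B5.Clo

theorem cl4 (fd : FDS) (g1 : G1S) (lsd : LsdS) (g4 : G4S) (e1 : E1S) (mv : MVS) (mm : MmulS) :
    Cl4S := by
  classical
  intro O _ _ _ _ P L _ _ _ _ _ phi D S i0 eta h hcc
  obtain ⟨c, n, G, hF⟩ := fd O P L phi D S i0 eta h hcc
  have hg1 := g1 O P L phi D S i0 eta h c n G hF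
  have hg3 := lsd O P L phi D S i0 eta h c n G hF
  have hg4 := g4 O P L phi D S i0 eta h c n G hF
  have hg1' : (rk (supp (cl (co phi i0) S h eta D)) : ℝ) ≤
      ∑ i ∈ big G, (rk (supp (G i)) : ℝ) + ((snp phi S i0 G).card : ℝ) + 1 := by
    exact_mod_cast hg1
  constructor
  · intro N hN B hB hB1 hBd
    have hMN : M (D.coeff 0 + (eta : RO O) * D.coeff S) = N := ((mv O).1 N _ hN).2
    rw [hMN] at hg3
    rw [hF.v00] at hN
    obtain ⟨Nc, Np, h1, h2, hNN⟩ := (e1 O).1 N _ _ hN
    obtain ⟨h3, h4⟩ := classV_prod e1 mv mm (fun i => (G i).coeff 0) Finset.univ Np h2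
    have hone : ∀ i, 1 ≤ M ((G i).coeff 0) := fun i => (h3 i (Finset.mem_univ i)).1
    have hsub : ∀ s : Finset (Fin n), ∏ i ∈ s, M ((G i).coeff 0) ≤ N := by
      intro s
      have h5 : ∏ i ∈ s, M ((G i).coeff 0) ≤ ∏ i, M ((G i).coeff 0) := by
        rw [← Finset.prod_sdiff (Finset.subset_univ s), mul_comm]
        refine le_mul_of_one_le_right ?_ ?_
        · exact zero_le_one.trans (one_le_prod (fun i => M ((G i).coeff 0)) s fun i _ => hone i)
        · exact one_le_prod (fun i => M ((G i).coeff 0)) _ fun i _ => hone i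
      have h6 : 1 ≤ Nc := h1.1
      have h7 : 0 ≤ Np := by linarith [h2.1]
      rw [← h4] at h5
      rw [hNN]
      nlinarith
    have hprod : ∏ k : Fin (big G).card, M ((G ((big G).equivFin.symm k)).coeff 0) =
        ∏ i ∈ big G, M ((G i).coeff 0) := by
      rw [← Finset.prod_coe_sort (big G)]
      exact (big G).equivFin.symm.prod_comp fun i : (big G) => M ((G i).coeff 0)
    refine ⟨(big G).card, fun k => M ((G ((big G).equivFin.symm k)).coeff 0),
      (snp phi S i0 G).card, ?_, ?_, ?_, ?_⟩
    · intro k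
      have hk := ((big G).equivFin.symm k).2
      unfold big at hk
      rw [Finset.mem_filter] at hk
      exact ⟨hk.2, _, h3 _ (Finset.mem_univ _)⟩
    · rw [hprod]
      exact hsub _
    · rw [hprod]
      exact hg3
    · have h5 : ∑ k : Fin (big G).card, B (M ((G ((big G).equivFin.symm k)).coeff 0)) =
          ∑ i ∈ big G, B (M ((G i).coeff 0)) := by
        rw [← Finset.sum_coe_sort (big G)]
        exact (big G).equivFin.symm.sum_comp fun i : (big G) => B (M ((G i).coeff 0))
      rw [h5]
      have h6 : ∑ i ∈ big G, (rk (supp (G i)) : ℝ) ≤ ∑ i ∈ big G, B (M ((G i).coeff 0)) := by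
        refine Finset.sum_le_sum fun i _ => ?_
        refine (hg4 i).1 (M ((G i).coeff 0)) _ (h3 i (Finset.mem_univ i)) (hB1 _) ?_
        intro N' hN' P' L' _ _ _ _ _ phi' D' hD' hcl
        have h7 : M ((G i).coeff 0) ≤ N := by
          have := hsub {i}
          rwa [Finset.prod_singleton] at this
        exact (hBd N' (hN'.trans h7) P' L' phi' D' hD' hcl).trans (hB hN')
      linarith
  · intro θ' hθ C hC hBd
    have hMN : M (D.coeff 0 + (eta : RO O) * D.coeff S) = θ' := ((mv O).2 θ' _ hθ).2
    rw [hMN] at hg3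
    refine ⟨(snp phi S i0 G).card, ?_⟩
    rw [hF.v00] at hθ
    rcases (e1 O).2 θ' _ _ hθ with ⟨h1, h2⟩ | ⟨h1, h2⟩
    · left
      obtain ⟨h3, h4⟩ := classV_prod e1 mv mm (fun i => (G i).coeff 0) Finset.univ 1 h2
      have hone : ∀ i, 1 ≤ M ((G i).coeff 0) := fun i => (h3 i (Finset.mem_univ i)).1
      have hall : ∀ i, M ((G i).coeff 0) = 1 := by
        intro i
        have h7 : M ((G i).coeff 0) ≤ ∏ i, M ((G i).coeff 0) := by
          rw [← Finset.mul_prod_erase Finset.univ _ (Finset.mem_univ i)]
          refine le_mul_of_one_le_right (by linarith [hone i]) ?_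
          exact one_le_prod (fun i => M ((G i).coeff 0)) _ (fun i _ => hone i)
        rw [← h4] at h7
        linarith [hone i]
      have hbig : big G = ∅ := by
        unfold big
        rw [Finset.filter_eq_empty_iff]
        intro i _ hi
        rw [hall i] at hi
        exact lt_irrefl _ hi
      rw [hbig, Finset.prod_empty, mul_one] at hg3
      rw [hbig, Finset.sum_empty] at hg1'
      exact ⟨hg3, by linarith⟩
    · right
      obtain ⟨i, _, h3, h4⟩ := classP_prod e1 mv mm (fun i => (G i).coeff 0) Finset.univ θ' h2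
      have hMi : M ((G i).coeff 0) = θ' := ((mv O).2 θ' _ h3).2
      have hbig : big G = {i} := by
        unfold big
        ext j
        rw [Finset.mem_filter, Finset.mem_singleton]
        constructor
        · rintro ⟨_, hj⟩
          by_contra hji
          have h5 := ((mv O).1 1 _ (h4 j (Finset.mem_univ j) hji)).2
          rw [h5] at hj
          exact lt_irrefl _ hj
        · rintro rfl
          exact ⟨Finset.mem_univ _, by rw [hMi]; exact h3.1⟩
      rw [hbig, Finset.prod_singleton, hMi] at hg3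
      rw [hbig, Finset.sum_singleton] at hg1'
      have h5 := (hg4 i).2 θ' C h3 hC hBd
      exact ⟨hg3, by linarith⟩

end Pool.Agent.B5.H31
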